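import Mathlib
import Pool.Agent.LibZD46.Base

set_option autoImplicit false

namespace Pool.Agent.LibZD46

open MeasureTheory Set Filter Topology Complex ProbabilityTheory
open scoped NNReal ComplexConjugate
open Pool.Agent.LibZM

namespace T2

/-- `s * Xfac s`, regular for `Re s > -1`. -/
noncomputable def Xt (s : ℂ) : ℂ := 2 * (2 * Real.pi) ^ (-s) * Complex.Gamma (s + 1) * Complex.cos (Real.pi * s / 2)

lemma Xt_eq {s : ℂ} (hs : s ≠ 0) : Xt s = s * Xfac s := by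
  unfold Xt Xfac
  rw [Complex.Gamma_add_one _ hs]; ring

lemma Xt_diff {s : ℂ} (hs : -1 < s.re) : DifferentiableAt ℂ Xt s := by
  have hpi : (Real.pi : ℂ) ≠ 0 := by exact_mod_cast Real.pi_ne_zero
  have h2pi : (2 * (Real.pi : ℂ)) ≠ 0 := by simp [hpi]
  have h1 : DifferentiableAt ℂ (fun s : ℂ => Complex.Gamma (s + 1)) s := by
    have h0 : DifferentiableAt ℂ Complex.Gamma (s + 1) := by
      apply Complex.differentiableAt_Gamma
      intro m hm
      have h2 := congrArg Complex.re hm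
      simp at h2
      linarith [Nat.cast_nonneg (α := ℝ) m]
    exact DifferentiableAt.comp s h0 (by fun_prop)
  have h2 : DifferentiableAt ℂ (fun s : ℂ => (2 * (Real.pi:ℂ)) ^ (-s)) s := by
    exact DifferentiableAt.const_cpow (by fun_prop) (Or.inl h2pi)
  unfold Xt
  fun_prop

lemma norm_cos_le (s : ℂ) : ‖Complex.cos (Real.pi * s / 2)‖ ≤ Real.exp (2 * |s.im|) := by
  have h4 : Complex.cos (Real.pi * s / 2) = (Complex.exp ((Real.pi * s / 2) * Complex.I) + Complex.exp (-(Real.pi * s / 2) * Complex.I)) / 2 := rfl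
  have h5 : ‖Complex.exp ((Real.pi * s / 2) * Complex.I)‖ ≤ Real.exp (2 * |s.im|) := by
    rw [Complex.norm_exp, Real.exp_le_exp]
    have : (((Real.pi : ℂ) * s / 2) * Complex.I).re = - (Real.pi * s.im / 2) := by
      simp [Complex.mul_re, Complex.mul_im]
    rw [this]
    have := Real.pi_lt_four
    have := Real.pi_pos
    have := neg_abs_le s.im
    have := abs_nonneg s.im
    nlinarith
  have h6 : ‖Complex.exp (-(Real.pi * s / 2) * Complex.I)‖ ≤ Real.exp (2 * |s.im|) := by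
    rw [Complex.norm_exp, Real.exp_le_exp]
    have : (-((Real.pi : ℂ) * s / 2) * Complex.I).re = (Real.pi * s.im / 2) := by
      simp [Complex.mul_re, Complex.mul_im]
    rw [this]
    have := Real.pi_lt_four
    have := Real.pi_pos
    have := le_abs_self s.im
    have := abs_nonneg s.im
    nlinarith
  rw [h4, norm_div]
  have h7 := norm_add_le (Complex.exp ((Real.pi * s / 2) * Complex.I)) (Complex.exp (-(Real.pi * s / 2) * Complex.I))
  have h8 : ‖(2:ℂ)‖ = 2 := by simp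
  rw [h8]
  linarith

lemma Xt_growth : ∃ C : ℝ, 0 ≤ C ∧ ∀ x ∈ Icc (-(1/2):ℝ) (1/2), ∀ y : ℝ, ‖Xt (x + y * I)‖ ≤ C * Real.exp (2 * |y|) := by
  obtain ⟨C, hC⟩ : ∃ C, ∀ x ∈ Set.Icc (1/2:ℝ) (3/2), Real.Gamma x ≤ C := by
    have hcont : ContinuousOn Real.Gamma (Set.Icc (1/2:ℝ) (3/2)) := by
      intro x hx
      refine (Real.differentiableAt_Gamma ?_).continuousAt.continuousWithinAt
      intro m hm
      have := hx.1
      rw [hm] at this
      linarith [Nat.cast_nonneg (α := ℝ) m]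
    obtain ⟨C, hC⟩ := (isCompact_Icc.image_of_continuousOn hcont).bddAbove
    exact ⟨C, fun x hx => hC ⟨x, hx, rfl⟩⟩
  have hC0 : 0 ≤ C := (Real.Gamma_pos_of_pos (by norm_num : (0:ℝ) < 1/2)).le.trans (hC (1/2) (by norm_num))
  refine ⟨2 * (2 * Real.pi) * C, by positivity, fun x hx y => ?_⟩
  have hre : ((x:ℂ) + y * I).re = x := by simp
  have him : ((x:ℂ) + y * I).im = y := by simp
  unfold Xt
  have h1 : ‖(2 * (Real.pi:ℂ)) ^ (-((x:ℂ) + y * I))‖ ≤ 2 * Real.pi := by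
    have : (2 * (Real.pi:ℂ)) = ((2 * Real.pi : ℝ) : ℂ) := by push_cast; ring
    rw [this, Complex.norm_cpow_eq_rpow_re_of_pos (by positivity)]
    calc (2 * Real.pi) ^ ((-((x:ℂ) + y * I)).re) ≤ (2 * Real.pi) ^ (1:ℝ) := by
          apply Real.rpow_le_rpow_of_exponent_le
          · linarith [Real.pi_gt_three]
          · rw [neg_re, hre]; linarith [hx.1]
      _ = _ := Real.rpow_one _
  have h2 : ‖Complex.Gamma ((x:ℂ) + y * I + 1)‖ ≤ C := by
    have hre1 : ((x:ℂ) + y * I + 1).re = x + 1 := by simp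
    refine (norm_Gamma_le' (by rw [hre1]; linarith [hx.1])).trans ?_
    rw [hre1]
    exact hC _ ⟨by linarith [hx.1], by linarith [hx.2]⟩
  have h3 := norm_cos_le ((x:ℂ) + y * I)
  rw [him] at h3
  rw [norm_mul, norm_mul, norm_mul]
  have h8 : ‖(2:ℂ)‖ = 2 := by simp
  rw [h8]
  gcongr

/-- On the line `Re s = -1/2` the function `s Xfac s` has modulus `2 pi`. -/
lemma norm_Xt_left (y : ℝ) : ‖Xt (((-(1/2) : ℝ) : ℂ) + y * I)‖ = 2 * Real.pi := by
  set s : ℂ := ((-(1/2) : ℝ) : ℂ) + y * I with hs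
  have hre : s.re = -(1/2) := by simp [hs]
  have hs0 : s ≠ 0 := fun h => by rw [h] at hre; norm_num at hre
  have hsin : Complex.sin (Real.pi * s) ≠ 0 := by
    rw [Complex.sin_ne_zero_iff]
    intro k hk
    have hpi : (Real.pi : ℂ) ≠ 0 := by exact_mod_cast Real.pi_ne_zero
    have h1 : s = k := by
      have : (Real.pi : ℂ) * s = Real.pi * k := by rw [hk]; ring
      exact mul_left_cancel₀ hpi this
    rw [h1] at hre
    simp at hre
    have h2 : ((2 * k : ℤ) : ℝ) = ((-1:ℤ):ℝ) := by push_cast; rw [hre]; norm_num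
    have h3 : 2 * k = -1 := by exact_mod_cast h2
    omega
  have h1 := Xfac_mul s hsin
  have h2 : ‖Xfac (1 - s)‖ = ‖s‖ / (2 * Real.pi) := by
    rw [norm_Xfac_threeHalf (by rw [sub_re, one_re, hre]; norm_num)]
    congr 1
    rw [show (1:ℂ) - s - 1 = -s by ring, norm_neg]
  have h3 : ‖Xfac s‖ * ‖Xfac (1 - s)‖ = 1 := by rw [← norm_mul, h1, norm_one]
  have h4 : 0 < ‖s‖ := norm_pos_iff.mpr hs0
  rw [Xt_eq hs0, norm_mul]
  rw [h2] at h3
  have hp := Real.pi_pos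
  have : ‖Xfac s‖ = 2 * Real.pi / ‖s‖ := by
    rw [eq_div_iff h4.ne']
    have h5 : ‖Xfac s‖ * (‖s‖ / (2 * Real.pi)) * (2 * Real.pi) = 1 * (2 * Real.pi) := by rw [h3]
    rw [one_mul] at h5
    rw [← h5]; field_simp
  rw [this]; field_simp

lemma dp_diff (f : ArithmeticFunction ℝ) (M : ℕ) : Differentiable ℂ (dp f M) := by
  unfold dp
  refine Differentiable.fun_sum fun n hn => ?_
  have hn1 : (n:ℂ) ≠ 0 := by
    have := (Finset.mem_Icc.mp hn).1
    exact_mod_cast (by omega : n ≠ 0)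
  refine Differentiable.const_mul ?_ _
  intro s
  exact DifferentiableAt.const_cpow (by fun_prop) (Or.inl hn1)

lemma dp_conj (f : ArithmeticFunction ℝ) (M : ℕ) (s : ℂ) : conj (dp f M s) = dp f M (conj s) := by
  unfold dp
  rw [map_sum]
  refine Finset.sum_congr rfl fun n hn => ?_
  rw [map_mul, conj_ofReal]
  congr 1
  have h : (n:ℂ) = ((n:ℝ):ℂ) := by push_cast; rfl
  rw [← map_neg, Complex.cpow_conj]
  · rw [h, conj_ofReal]
  · rw [h, Complex.arg_ofReal_of_nonneg (by positivity)]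
    exact Real.pi_pos.ne

lemma norm_dp_le {N : ℕ} (hN : 1 ≤ N) (X : ℕ) (s : ℂ) : 
    ‖dp (bt N X) X s‖ ≤ ∑ n ∈ Finset.Icc 1 X, (n:ℝ) ^ (-s.re) := by
  unfold dp
  refine (norm_sum_le _ _).trans (Finset.sum_le_sum fun n hn => ?_)
  have hn1 := (Finset.mem_Icc.mp hn).1
  rw [norm_mul, norm_real, Real.norm_eq_abs, abs_of_nonneg (bt_nonneg N X n), 
    Complex.norm_natCast_cpow_of_pos (by omega), neg_re]
  calc bt N X n * (n:ℝ) ^ (-s.re) ≤ 1 * (n:ℝ) ^ (-s.re) := by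
        gcongr
        exact bt_le_one hN X n
    _ = _ := one_mul _

lemma norm_dp_le_X {N : ℕ} (hN : 1 ≤ N) (X : ℕ) {s : ℂ} (hs : 0 ≤ s.re) : ‖dp (bt N X) X s‖ ≤ X := by
  refine (norm_dp_le hN X s).trans ?_
  calc ∑ n ∈ Finset.Icc 1 X, (n:ℝ) ^ (-s.re) ≤ ∑ n ∈ Finset.Icc 1 X, (1:ℝ) := by
        refine Finset.sum_le_sum fun n hn => ?_
        have hn1 := (Finset.mem_Icc.mp hn).1
        exact Real.rpow_le_one_of_one_le_of_nonpos (by exact_mod_cast hn1) (by linarith)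
    _ = X := by simp

lemma norm_dp_le_X2 {N : ℕ} (hN : 1 ≤ N) (X : ℕ) {s : ℂ} (hs : -(1/2) ≤ s.re) : 
    ‖dp (bt N X) X s‖ ≤ (X:ℝ) ^ (3/2:ℝ) := by
  refine (norm_dp_le hN X s).trans ?_
  rcases Nat.eq_zero_or_pos X with rfl | hX
  · simp
  have hX' : (0:ℝ) < X := by exact_mod_cast hX
  calc ∑ n ∈ Finset.Icc 1 X, (n:ℝ) ^ (-s.re) ≤ ∑ n ∈ Finset.Icc 1 X, (X:ℝ) ^ (1/2:ℝ) := by
        refine Finset.sum_le_sum fun n hn => ?_
        have hn1 := (Finset.mem_Icc.mp hn).1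
        have hn2 := (Finset.mem_Icc.mp hn).2
        calc (n:ℝ) ^ (-s.re) ≤ (n:ℝ) ^ (1/2:ℝ) := 
              Real.rpow_le_rpow_of_exponent_le (by exact_mod_cast hn1) (by linarith)
          _ ≤ _ := Real.rpow_le_rpow (by positivity) (by exact_mod_cast hn2) (by norm_num)
    _ = X * (X:ℝ) ^ (1/2:ℝ) := by simp
    _ = _ := by
      rw [show (3/2:ℝ) = 1 + 1/2 by norm_num, Real.rpow_add hX', Real.rpow_one]

/-- The constant `zeta(3/2)`. -/
noncomputable def Z : ℝ := ∑' n : ℕ, (n:ℝ) ^ (-(3/2):ℝ)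

lemma Z_summable : Summable (fun n : ℕ => (n:ℝ) ^ (-(3/2):ℝ)) := Real.summable_nat_rpow.mpr (by norm_num)

lemma Z_nonneg : 0 ≤ Z := tsum_nonneg fun n => by positivity

lemma norm_dp_le_Z {N : ℕ} (hN : 1 ≤ N) (X : ℕ) {s : ℂ} (hs : s.re = 3/2) : ‖dp (bt N X) X s‖ ≤ Z := by
  refine (norm_dp_le hN X s).trans ?_
  rw [hs]
  exact Z_summable.sum_le_tsum _ (fun n _ => by positivity)

lemma norm_zeta_le_Z {s : ℂ} (hs : s.re = 3/2) : ‖riemannZeta s‖ ≤ Z := by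
  have h1 : 1 < s.re := by rw [hs]; norm_num
  rw [zeta_eq_tsum_one_div_nat_cpow h1]
  have h0 : ∀ n : ℕ, ‖1 / (n:ℂ) ^ s‖ ≤ (n:ℝ) ^ (-(3/2):ℝ) := by
    intro n
    rcases Nat.eq_zero_or_pos n with rfl | hn
    · have hs0 : s ≠ 0 := fun h => by rw [h] at hs; norm_num at hs
      rw [Nat.cast_zero, Complex.zero_cpow hs0]
      simp
    · rw [norm_div, norm_one, Complex.norm_natCast_cpow_of_pos hn, hs, Real.rpow_neg (by positivity), one_div]
  exact tsum_of_norm_bounded Z_summable.hasSum h0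

/-- The shifted integrand, without the Gaussian kernel. -/
noncomputable def Ps (N X i j a b : ℕ) (s : ℂ) : ℂ := 
  Xt s ^ j * riemannZeta₁ (1 - s) ^ i * dp (bt N X) X (1 - s) ^ a * dp (bt N X) X s ^ b / (s + 1) ^ (i + j)

lemma Ps_diff (N X i j a b : ℕ) {s : ℂ} (hs : -1 < s.re) : DifferentiableAt ℂ (Ps N X i j a b) s := by
  have h1 := Xt_diff hs
  have h2 : DifferentiableAt ℂ (fun s => riemannZeta₁ (1 - s)) s := 
    (differentiable_riemannZeta₁.comp (by fun_prop : Differentiable ℂ fun s : ℂ => 1 - s)) s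
  have h3 : DifferentiableAt ℂ (fun s => dp (bt N X) X (1 - s)) s := 
    ((dp_diff _ X).comp (by fun_prop : Differentiable ℂ fun s : ℂ => 1 - s)) s
  have h4 := (dp_diff (bt N X) X) s
  have h5 : (s + 1) ^ (i + j) ≠ 0 := by
    apply pow_ne_zero
    intro h
    have := congrArg Complex.re h
    simp at this
    linarith
  unfold Ps
  exact ((((h1.pow j).mul (h2.pow i)).mul (h3.pow a)).mul (h4.pow b)).div (by fun_prop) h5

lemma Ps_growth {N : ℕ} (hN : 1 ≤ N) (X i j a b : ℕ) : ∃ C K : ℝ, 0 ≤ C ∧ 0 ≤ K ∧ 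
    ∀ x ∈ Icc (-(1/2):ℝ) (1/2), ∀ y : ℝ, ‖Ps N X i j a b (x + y * I)‖ ≤ C * Real.exp (K * |y|) := by
  obtain ⟨C, hC0, hC⟩ := Xt_growth
  refine ⟨C ^ j * (6 ^ i * (2 * i).factorial * Real.exp 1) * (X:ℝ) ^ a * ((X:ℝ) ^ (3/2:ℝ)) ^ b * 2 ^ (i + j), 
    2 * j + 1, by positivity, by positivity, fun x hx y => ?_⟩
  have hre : ((x:ℂ) + y * I).re = x := by simp
  have h1 : ‖Xt (x + y * I) ^ j‖ ≤ C ^ j * Real.exp (2 * j * |y|) := by
    rw [norm_pow]
    calc ‖Xt (x + y * I)‖ ^ j ≤ (C * Real.exp (2 * |y|)) ^ j := by gcongr; exact hC x hx y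
      _ = _ := by rw [mul_pow, ← Real.exp_nat_mul]; ring_nf
  have h2 : ‖riemannZeta₁ (1 - (x + y * I)) ^ i‖ ≤ (6 ^ i * (2 * i).factorial * Real.exp 1) * Real.exp |y| := by
    have h := norm_zeta1_pow_le i (x := 1 - x) (y := -y) ⟨by linarith [hx.2], by linarith [hx.1]⟩
    rw [abs_neg] at h
    have e : (((1 - x : ℝ) : ℂ) + ((-y : ℝ) : ℂ) * I) = 1 - (x + y * I) := by push_cast; ring
    rwa [e] at h
  have h3 : ‖dp (bt N X) X (1 - (x + y * I)) ^ a‖ ≤ (X:ℝ) ^ a := by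
    rw [norm_pow]
    gcongr
    refine norm_dp_le_X hN X ?_
    rw [sub_re, one_re, hre]; linarith [hx.2]
  have h4 : ‖dp (bt N X) X (x + y * I) ^ b‖ ≤ ((X:ℝ) ^ (3/2:ℝ)) ^ b := by
    rw [norm_pow]
    gcongr
    exact norm_dp_le_X2 hN X (by rw [hre]; exact hx.1)
  have h5 : ‖((x:ℂ) + y * I + 1) ^ (i + j)‖⁻¹ ≤ 2 ^ (i + j) := by
    rw [norm_pow, ← inv_pow]
    gcongr
    have : 1/2 ≤ ‖(x:ℂ) + y * I + 1‖ := by
      refine le_trans ?_ (Complex.abs_re_le_norm _)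
      have : ((x:ℂ) + y * I + 1).re = x + 1 := by simp
      rw [this, abs_of_nonneg (by linarith [hx.1])]
      linarith [hx.1]
    rw [inv_le_comm₀ (by linarith) (by norm_num)]
    linarith
  unfold Ps
  rw [norm_div, norm_mul, norm_mul, norm_mul, div_eq_mul_inv]
  calc _ ≤ (C ^ j * Real.exp (2 * j * |y|)) * ((6 ^ i * (2 * i).factorial * Real.exp 1) * Real.exp |y|) * (X:ℝ) ^ a * 
        ((X:ℝ) ^ (3/2:ℝ)) ^ b * 2 ^ (i + j) := by gcongr
    _ = _ := by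
      have : Real.exp ((2 * (j:ℝ) + 1) * |y|) = Real.exp (2 * j * |y|) * Real.exp |y| := by
        rw [← Real.exp_add]; ring_nf
      rw [this]; ring

/-- Shift for functions of exponential growth against the Gaussian kernel. -/
theorem shift_exp {F : ℂ → ℂ} {a b : ℝ} (hab : a ≤ b) (hF : ∀ s : ℂ, a ≤ s.re → s.re ≤ b → DifferentiableAt ℂ F s) 
    {u v : ℝ} (hv : 0 < v) {C K : ℝ} (hC : 0 ≤ C) (hK : 0 ≤ K)
    (hb : ∀ x ∈ Icc a b, ∀ y : ℝ, ‖F (x + y * I)‖ ≤ C * Real.exp (K * |y|)) : 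
    ∫ y : ℝ, F (a + y * I) * KK u v (a + y * I) = ∫ y : ℝ, F (b + y * I) * KK u v (b + y * I) := by
  set Bd : ℝ := ((a - 1/2) ^ 2 + (b - 1/2) ^ 2) / (2 * v) with hBd
  obtain ⟨h1, h2, h3⟩ := gdom (u := u) (v := 2 * v) (by positivity) (C * Real.exp (Bd + K * |u| + K ^ 2 * v))
  refine (vertical_shift (G := fun s => F s * KK u v s) hab 
    (fun s h h' => (hF s h h').mul (differentiable_KK u v s)) h1 h2 h3 ?_).2
  intro x hx y
  rw [norm_mul, norm_KK]
  have h4 : ((x - 1/2) ^ 2 - (y - u) ^ 2) / (2 * v) ≤ Bd + -(y - u) ^ 2 / (2 * v) := by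
    rw [hBd, ← add_div]
    apply div_le_div_of_nonneg_right _ (by positivity)
    have : (x - 1/2) ^ 2 ≤ (a - 1/2) ^ 2 + (b - 1/2) ^ 2 := by
      have := hx.1
      have := hx.2
      rcases le_total x (1/2) with h | h
      · have : (x - 1/2) ^ 2 ≤ (a - 1/2) ^ 2 := by nlinarith
        nlinarith [sq_nonneg (b - 1/2)]
      · have : (x - 1/2) ^ 2 ≤ (b - 1/2) ^ 2 := by nlinarith
        nlinarith [sq_nonneg (a - 1/2)]
    linarith
  have h5 : K * |y| ≤ K * |u| + K ^ 2 * v + (y - u) ^ 2 / (4 * v) := by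
    have h6 : |y| ≤ |u| + |y - u| := by
      have := abs_add_le u (y - u)
      rwa [add_sub_cancel] at this
    have h7 : K * |y - u| ≤ K ^ 2 * v + (y - u) ^ 2 / (4 * v) := by
      rw [← sq_abs (y - u)]
      have e : K ^ 2 * v + |y-u| ^ 2 / (4 * v) - K * |y-u| = (2 * v * K - |y-u|)^2 / (4 * v) := by field_simp; ring
      have : 0 ≤ (2 * v * K - |y-u|)^2 / (4 * v) := by positivity
      linarith
    nlinarith
  calc ‖F (x + y * I)‖ * Real.exp (((x - 1/2) ^ 2 - (y - u) ^ 2) / (2 * v)) 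
      ≤ (C * Real.exp (K * |y|)) * Real.exp (Bd + -(y - u) ^ 2 / (2 * v)) := by
        have := hb x hx y
        gcongr
    _ ≤ (C * Real.exp (K * |u| + K ^ 2 * v + (y - u) ^ 2 / (4 * v))) * Real.exp (Bd + -(y - u) ^ 2 / (2 * v)) := by gcongr
    _ = C * Real.exp (Bd + K * |u| + K ^ 2 * v) * 1 * Real.exp (-(y - u) ^ 2 / (2 * (2 * v))) := by
        rw [mul_one, mul_assoc, mul_assoc, ← Real.exp_add, ← Real.exp_add]
        congr 2
        field_simp; ring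
    _ ≤ _ := by
        gcongr
        exact Real.one_le_exp (abs_nonneg y)

/-- The integrand. -/
noncomputable def ff (N X i j a b : ℕ) (t : ℝ) : ℂ := 
  (riemannZeta (crit t)) ^ i * (chi t) ^ j * (Bf N X t) ^ a * (conj (Bf N X t)) ^ b

lemma crit_ne_zero (t : ℝ) : crit t ≠ 0 := by
  intro h
  have := congrArg Complex.re h
  norm_num at this

lemma crit_add_one_ne (t : ℝ) : crit t + 1 ≠ 0 := by
  intro h
  have := congrArg Complex.re h
  norm_num at this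

lemma zeta1_one_sub {s : ℂ} (hs : s ≠ 0) : riemannZeta₁ (1 - s) = - s * riemannZeta (1 - s) := by
  have hne : (1 - s) ≠ 1 := by simpa using hs
  rw [riemannZeta_eq_inv_sub_mul hne]
  have : 1 - s - 1 = - s := by ring
  rw [this]; field_simp

lemma Ps_crit (N X i j a b : ℕ) (t : ℝ) : 
    Ps N X i j a b (crit t) = (-1) ^ i * (crit t / (crit t + 1)) ^ (i + j) * conj (ff N X i j a b t) := by
  have hs0 := crit_ne_zero t
  have h1 : riemannZeta₁ (1 - crit t) = - crit t * conj (riemannZeta (crit t)) := by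
    rw [← riemannZeta_conj, conj_crit, zeta1_one_sub hs0]
  have h2 : dp (bt N X) X (1 - crit t) = conj (Bf N X t) := by
    unfold Bf; rw [dp_conj, conj_crit]
  have h3 : Xfac (crit t) = conj (chi t) := by unfold chi; simp
  have h4 : dp (bt N X) X (crit t) = Bf N X t := rfl
  unfold Ps ff
  rw [Xt_eq hs0, h1, h2, h3, h4]
  simp only [map_mul, map_pow, Complex.conj_conj]
  rw [div_pow, mul_pow, mul_pow, neg_pow, pow_add (crit t)]
  ring

lemma norm_ff_le {N : ℕ} (hN : 1 ≤ N) (X : ℕ) {i : ℕ} (hi : i ≤ 1) (j a b : ℕ) (t : ℝ) : 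
    ‖ff N X i j a b t‖ ≤ (X:ℝ) ^ (a + b) * (1 + ‖riemannZeta (crit t)‖) := by
  unfold ff
  rw [norm_mul, norm_mul, norm_mul, norm_pow, norm_pow, norm_pow, norm_pow, norm_chi, one_pow, mul_one, Complex.norm_conj]
  have h1 : ‖Bf N X t‖ ≤ X := norm_dp_le_X hN X (by simp)
  have h2 : ‖riemannZeta (crit t)‖ ^ i ≤ 1 + ‖riemannZeta (crit t)‖ := by
    interval_cases i
    · simp
    · simp
  calc ‖riemannZeta (crit t)‖ ^ i * ‖Bf N X t‖ ^ a * ‖Bf N X t‖ ^ b ≤ 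
        (1 + ‖riemannZeta (crit t)‖) * (X:ℝ) ^ a * (X:ℝ) ^ b := by gcongr
    _ = _ := by rw [pow_add]; ring

lemma norm_one_sub_pow_le {z : ℂ} (hz : ‖z‖ ≤ 1) (n : ℕ) : ‖1 - z ^ n‖ ≤ n * ‖1 - z‖ := by
  induction n with
  | zero => simp
  | succ n ih => 
    have e : 1 - z ^ (n+1) = (1 - z ^ n) + z ^ n * (1 - z) := by ring
    rw [e]
    refine (norm_add_le _ _).trans ?_
    rw [norm_mul, norm_pow]
    have h1 : ‖z‖ ^ n ≤ 1 := pow_le_one₀ (norm_nonneg _) hz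
    have h2 : ‖z‖ ^ n * ‖1 - z‖ ≤ 1 * ‖1 - z‖ := by gcongr
    push_cast
    linarith

lemma norm_crit_le_add (t : ℝ) : ‖crit t‖ ≤ ‖crit t + 1‖ := by
  rw [Complex.norm_def, Complex.norm_def]
  apply Real.sqrt_le_sqrt
  rw [normSq_apply, normSq_apply]
  simp
  norm_num

lemma w_norm (t : ℝ) : ‖crit t / (crit t + 1)‖ ≤ 1 := by
  rw [norm_div]
  exact div_le_one_of_le₀ (norm_crit_le_add t) (norm_nonneg _)

lemma one_sub_w (t : ℝ) : 1 - crit t / (crit t + 1) = (crit t + 1)⁻¹ := by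
  have := crit_add_one_ne t
  field_simp
  ring

/-- Tail majorant. -/
noncomputable def tq (u H t : ℝ) : ℝ := Real.exp (-u / (2 * H)) * Real.exp (H⁻¹ * |t - u|)

lemma tq_nonneg (u H t : ℝ) : 0 ≤ tq u H t := by unfold tq; positivity

lemma one_le_tq {u H t : ℝ} (hH : 0 < H) (ht : |t| < u / 2) : 1 ≤ tq u H t := by
  unfold tq
  rw [← Real.exp_add]
  apply Real.one_le_exp
  have h1 : u / 2 ≤ |t - u| := by
    have h2 := le_abs_self (u - t)
    rw [abs_sub_comm] at h2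
    have := le_abs_self t
    linarith
  have e : -u / (2 * H) + H⁻¹ * |t - u| = H⁻¹ * (|t - u| - u / 2) := by field_simp; ring
  rw [e]; exact mul_nonneg (by positivity) (by linarith)

lemma tq_int (u : ℝ) {v : ℝ≥0} (hv : 0 < v) : Integrable (tq u √(v:ℝ)) (gaussianReal u v) ∧ 
    ∫ t, tq u √(v:ℝ) t ∂(gaussianReal u v) ≤ 4 * Real.exp (-u / (2 * √(v:ℝ))) := by
  have hv' : (0:ℝ) < v := by exact_mod_cast hv
  obtain ⟨h1, h2⟩ := gauss_exp_abs u (v := v) (√(v:ℝ))⁻¹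
  have e0 : (v:ℝ) * (√(v:ℝ))⁻¹ ^ 2 / 2 = 1/2 := by
    rw [inv_pow, Real.sq_sqrt hv'.le]; field_simp
  rw [e0] at h2
  have e1 : Real.exp (1/2) ≤ 2 := by
    have h3 : Real.exp (1/2) ^ 2 = Real.exp 1 := by rw [← Real.exp_nat_mul]; norm_num
    have := Real.exp_one_lt_d9
    nlinarith [Real.exp_pos (1/2)]
  refine ⟨h1.const_mul _, ?_⟩
  unfold tq
  rw [integral_const_mul]
  calc Real.exp (-u / (2 * √(v:ℝ))) * ∫ t, Real.exp ((√(v:ℝ))⁻¹ * |t - u|) ∂(gaussianReal u v) 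
      ≤ Real.exp (-u / (2 * √(v:ℝ))) * (2 * 2) := by
        gcongr
        linarith
    _ = _ := by ring

lemma inv_bound {u H t r : ℝ} (hu : 0 < u) (hH : 0 < H) (hr : 1/2 ≤ r) (hrt : |t| ≤ r) : r⁻¹ ≤ 2 / u + 2 * tq u H t := by
  rcases lt_or_ge |t| (u / 2) with h | h
  · have h1 := one_le_tq hH h
    have h2 : r⁻¹ ≤ 2 := by
      rw [inv_le_comm₀ (by linarith) (by norm_num)]; linarith
    have : 0 < 2 / u := by positivity
    linarith
  · have h1 := tq_nonneg u H t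
    have h2 : r⁻¹ ≤ 2 / u := by
      rw [inv_le_comm₀ (by linarith) (by positivity), inv_div]; linarith
    linarith

lemma inv_sq_bound {u H t r : ℝ} (hu : 0 < u) (hH : 0 < H) (hr : 1 ≤ r) (hrt : |t| ≤ r) : r⁻¹ ^ 2 ≤ 4 / u ^ 2 + tq u H t := by
  rcases lt_or_ge |t| (u / 2) with h | h
  · have h1 := one_le_tq hH h
    have h2 : r⁻¹ ≤ 1 := inv_le_one_of_one_le₀ hr
    have h3 : r⁻¹ ^ 2 ≤ 1 := pow_le_one₀ (by positivity) h2
    have : 0 < 4 / u ^ 2 := by positivity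
    linarith
  · have h1 := tq_nonneg u H t
    have h2 : r⁻¹ ≤ 2 / u := by
      rw [inv_le_comm₀ (by linarith) (by positivity), inv_div]; linarith
    have h3 : r⁻¹ ^ 2 ≤ (2 / u) ^ 2 := by gcongr
    have h4 : (2 / u) ^ 2 = 4 / u ^ 2 := by rw [div_pow]; norm_num
    linarith

lemma amgm {l z r : ℝ} (hl : 0 < l) : (1 + z) * r ≤ l * (1 + z ^ 2) + l⁻¹ * r ^ 2 := by
  obtain ⟨m, hm⟩ : ∃ m, r = l * m := ⟨l⁻¹ * r, by field_simp⟩
  subst hm
  have e : l * (1 + z ^ 2) + l⁻¹ * (l * m) ^ 2 - (1 + z) * (l * m) = l * (1 + z ^ 2 + m ^ 2 - (1 + z) * m) := by field_simp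
  have h1 : 0 ≤ 1 + z ^ 2 + m ^ 2 - (1 + z) * m := by nlinarith [sq_nonneg (z - m), sq_nonneg (m - 1), sq_nonneg z]
  have := mul_nonneg hl.le h1
  linarith

lemma continuous_chi : Continuous chi := by
  have h : ∀ t : ℝ, chi t = conj (Xt (crit t) / crit t) := by
    intro t
    unfold chi
    rw [Xt_eq (crit_ne_zero t), mul_div_cancel_left₀ _ (crit_ne_zero t)]
  have h1 : Continuous (fun t : ℝ => Xt (crit t)) := by
    rw [continuous_iff_continuousAt]
    intro t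
    have h2 : ContinuousAt Xt (crit t) := (Xt_diff (by simp; norm_num)).continuousAt
    exact ContinuousAt.comp (g := Xt) h2 continuous_crit.continuousAt
  have h3 : Continuous (fun t : ℝ => Xt (crit t) / crit t) := h1.div continuous_crit crit_ne_zero
  have h4 := Complex.continuous_conj.comp h3
  exact (continuous_congr h).mpr h4

lemma continuous_Bf (N X : ℕ) : Continuous (Bf N X) := (dp_diff (bt N X) X).continuous.comp continuous_crit

lemma continuous_ff (N X i j a b : ℕ) : Continuous (ff N X i j a b) := by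
  unfold ff
  have h1 := continuous_zeta_crit
  have h2 := continuous_chi
  have h3 := continuous_Bf N X
  exact (((h1.pow i).mul (h2.pow j)).mul (h3.pow a)).mul ((Complex.continuous_conj.comp h3).pow b)

lemma int_zeta_sq (u : ℝ) (v : ℝ≥0) : Integrable (fun t : ℝ => ‖riemannZeta (crit t)‖ ^ 2) (gaussianReal u v) := by
  have h2 : Integrable (fun t : ℝ => t ^ 2) (gaussianReal u v) := 
    (memLp_id_gaussianReal (μ := u) (v := v) 2).integrable_sq
  refine Integrable.mono' (g := fun t => 32 + 8 * t ^ 2) ((integrable_const _).add (h2.const_mul 8)) ?_ 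
    (Eventually.of_forall fun t => ?_)
  · exact (continuous_zeta_crit.norm.pow 2).aestronglyMeasurable
  · rw [Real.norm_eq_abs, abs_of_nonneg (by positivity)]
    have h := norm_zeta_crit_le t
    have h0 := norm_nonneg (riemannZeta (crit t))
    have h3 : t ^ 2 = |t| ^ 2 := (sq_abs t).symm
    rw [h3]
    have := abs_nonneg t
    nlinarith [sq_nonneg (|t| - 2)]

lemma int_ff {N : ℕ} (hN : 1 ≤ N) (X : ℕ) {i : ℕ} (hi : i ≤ 1) (j a b : ℕ) (u : ℝ) (v : ℝ≥0) : 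
    Integrable (ff N X i j a b) (gaussianReal u v) := by
  refine Integrable.mono' (g := fun t => (X:ℝ) ^ (a + b) * (5 + 2 * |t|)) 
    (((integrable_const 5).add ((integrable_abs_gaussian u v).const_mul 2)).const_mul _) 
    (continuous_ff N X i j a b).aestronglyMeasurable (Eventually.of_forall fun t => ?_)
  refine (norm_ff_le hN X hi j a b t).trans ?_
  have := norm_zeta_crit_le t
  exact mul_le_mul_of_nonneg_left (by linarith) (by positivity)

lemma norm_left {N : ℕ} (hN : 1 ≤ N) (X i : ℕ) {j : ℕ} (hj : 1 ≤ j) (a b : ℕ) {u H : ℝ} (hu : 0 < u) (hH : 0 < H) (t : ℝ) : 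
    ‖Ps N X i j a b (((-(1/2) : ℝ) : ℂ) + t * I)‖ ≤ 
      ((4 * Real.pi) ^ j * Z ^ (i + a) * ((X:ℝ) ^ (3/2:ℝ)) ^ b) * (2 / u + 2 * tq u H t) := by
  set s : ℂ := ((-(1/2) : ℝ) : ℂ) + t * I with hs
  have hre : s.re = -(1/2) := by simp [hs]
  have him : s.im = t := by simp [hs]
  have hs0 : s ≠ 0 := fun h => by rw [h] at hre; norm_num at hre
  have hre1 : (1 - s).re = 3/2 := by rw [sub_re, one_re, hre]; norm_num
  have hnn : ‖s‖ = ‖s + 1‖ := by
    have k1 : (s + 1).re = 1/2 := by rw [add_re, one_re, hre]; norm_num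
    have k2 : (s + 1).im = t := by rw [add_im, one_im, him, add_zero]
    rw [Complex.norm_def, Complex.norm_def, normSq_apply s, normSq_apply (s + 1), k1, k2, hre, him]
    congr 1; ring
  have hr : 1/2 ≤ ‖s + 1‖ := by
    refine le_trans ?_ (Complex.abs_re_le_norm _)
    rw [add_re, one_re, hre]; norm_num
  have hrt : |t| ≤ ‖s + 1‖ := by
    have := Complex.abs_im_le_norm (s + 1)
    rwa [add_im, one_im, him, add_zero] at this
  have h1 : ‖Xt s‖ = 2 * Real.pi := norm_Xt_left t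
  have h2 : ‖riemannZeta₁ (1 - s)‖ ≤ ‖s + 1‖ * Z := by
    rw [zeta1_one_sub hs0, norm_mul, norm_neg, hnn]
    gcongr
    exact norm_zeta_le_Z hre1
  have h3 : ‖dp (bt N X) X (1 - s)‖ ≤ Z := norm_dp_le_Z hN X hre1
  have h4 : ‖dp (bt N X) X s‖ ≤ (X:ℝ) ^ (3/2:ℝ) := norm_dp_le_X2 hN X (by rw [hre])
  have hZ := Z_nonneg
  have h5 : ‖s + 1‖⁻¹ ≤ 2 := by
    rw [inv_le_comm₀ (by linarith) (by norm_num)]; linarith
  have h6 := inv_bound (t := t) hu hH hr hrt
  have hr0 : 0 < ‖s + 1‖ := by linarith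
  have h7 : ‖s + 1‖⁻¹ ^ j ≤ 2 ^ j * (2 / u + 2 * tq u H t) := by
    obtain ⟨k, rfl⟩ : ∃ k, j = k + 1 := ⟨j - 1, by omega⟩
    have h8 := tq_nonneg u H t
    calc ‖s + 1‖⁻¹ ^ (k + 1) = ‖s + 1‖⁻¹ ^ k * ‖s + 1‖⁻¹ := pow_succ _ _
      _ ≤ 2 ^ k * (2 / u + 2 * tq u H t) := by gcongr
      _ ≤ 2 ^ (k + 1) * (2 / u + 2 * tq u H t) := by
        have h9 : (0:ℝ) ≤ 2 / u + 2 * tq u H t := by positivity
        have h10 : (2:ℝ) ^ k ≤ 2 ^ (k + 1) := pow_le_pow_right₀ (by norm_num) (by omega)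
        exact mul_le_mul_of_nonneg_right h10 h9
  unfold Ps
  rw [norm_div, norm_mul, norm_mul, norm_mul, norm_pow, norm_pow, norm_pow, norm_pow, norm_pow, h1]
  calc (2 * Real.pi) ^ j * ‖riemannZeta₁ (1 - s)‖ ^ i * ‖dp (bt N X) X (1 - s)‖ ^ a * ‖dp (bt N X) X s‖ ^ b / ‖s + 1‖ ^ (i + j) 
      ≤ (2 * Real.pi) ^ j * (‖s + 1‖ * Z) ^ i * Z ^ a * ((X:ℝ) ^ (3/2:ℝ)) ^ b / ‖s + 1‖ ^ (i + j) := by gcongr
    _ = ((2 * Real.pi) ^ j * Z ^ (i + a) * ((X:ℝ) ^ (3/2:ℝ)) ^ b) * ‖s + 1‖⁻¹ ^ j := by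
        rw [mul_pow (‖s + 1‖), pow_add, pow_add, inv_pow]
        field_simp
    _ ≤ ((2 * Real.pi) ^ j * Z ^ (i + a) * ((X:ℝ) ^ (3/2:ℝ)) ^ b) * (2 ^ j * (2 / u + 2 * tq u H t)) := by gcongr
    _ = _ := by
        rw [show (4 * Real.pi) = (2 * Real.pi) * 2 by ring, mul_pow (2 * Real.pi) 2]
        ring

theorem main_bound {N : ℕ} (hN : 1 ≤ N) (X : ℕ) {i : ℕ} (hi : i ≤ 1) {j : ℕ} (hj : 1 ≤ j) (a b : ℕ) {u : ℝ} (hu : 0 < u) 
    {v : ℝ≥0} (hv : 1 ≤ v) {l : ℝ} (hl : 0 < l) : 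
    ‖∫ t, ff N X i j a b t ∂(gaussianReal u v)‖ ≤ 
      (((i + j : ℕ) : ℝ) * (X:ℝ) ^ (a + b)) * (l * (1 + ∫ t, ‖riemannZeta (crit t)‖ ^ 2 ∂(gaussianReal u v)) + 
        l⁻¹ * (4 / u ^ 2 + 4 * Real.exp (-u / (2 * √(v:ℝ))))) + 
      2 * (((4 * Real.pi) ^ j * Z ^ (i + a) * ((X:ℝ) ^ (3/2:ℝ)) ^ b) * (2 / u + 8 * Real.exp (-u / (2 * √(v:ℝ))))) := by
  have hv0 : 0 < v := lt_of_lt_of_le one_pos hv
  have hv1 : (1:ℝ) ≤ v := by exact_mod_cast hv
  have hv' : (0:ℝ) < v := by linarith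
  set μ := gaussianReal u v with hμ
  set H := √(v:ℝ) with hH
  have hH0 : 0 < H := Real.sqrt_pos.mpr hv'
  obtain ⟨it, vt⟩ := tq_int u hv0
  rw [← hH, ← hμ] at it vt
  have iz := int_zeta_sq u v
  rw [← hμ] at iz
  have iF := int_ff hN X hi j a b u v
  rw [← hμ] at iF
  have iF' : Integrable (fun t => (-1) ^ i * conj (ff N X i j a b t)) μ := by
    have h := (Complex.conjCLE.toContinuousLinearMap.integrable_comp iF).const_mul ((-1:ℂ) ^ i)
    exact h
  have hPF : ∀ t, ‖Ps N X i j a b (crit t)‖ ≤ ‖ff N X i j a b t‖ := by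
    intro t
    rw [Ps_crit, norm_mul, norm_mul, norm_pow, norm_neg, norm_one, one_pow, one_mul, Complex.norm_conj, norm_pow]
    calc ‖crit t / (crit t + 1)‖ ^ (i + j) * ‖ff N X i j a b t‖ ≤ 1 * ‖ff N X i j a b t‖ := by
          gcongr
          exact pow_le_one₀ (norm_nonneg _) (w_norm t)
      _ = _ := one_mul _
  have cP : Continuous (fun t : ℝ => Ps N X i j a b (crit t)) := by
    rw [continuous_iff_continuousAt]
    intro t
    have h2 : ContinuousAt (Ps N X i j a b) (crit t) := (Ps_diff N X i j a b (by simp; norm_num)).continuousAt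
    exact ContinuousAt.comp (g := Ps N X i j a b) h2 continuous_crit.continuousAt
  have iP : Integrable (fun t : ℝ => Ps N X i j a b (crit t)) μ := 
    Integrable.mono iF cP.aestronglyMeasurable (Eventually.of_forall hPF)
  have e1 : ‖∫ t, ff N X i j a b t ∂μ‖ = ‖∫ t, (-1) ^ i * conj (ff N X i j a b t) ∂μ‖ := by
    rw [integral_const_mul, norm_mul, norm_pow, norm_neg, norm_one, one_pow, one_mul, integral_conj, Complex.norm_conj]
  have e2 : ∫ t, (-1) ^ i * conj (ff N X i j a b t) ∂μ = 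
      ∫ t, ((-1) ^ i * conj (ff N X i j a b t) - Ps N X i j a b (crit t)) ∂μ + ∫ t, Ps N X i j a b (crit t) ∂μ := by
    rw [integral_sub iF' iP]; ring
  rw [e1, e2]
  refine (norm_add_le _ _).trans (add_le_add ?_ ?_)
  · have hpt : ∀ t : ℝ, ‖(-1) ^ i * conj (ff N X i j a b t) - Ps N X i j a b (crit t)‖ ≤ 
        (((i + j : ℕ) : ℝ) * (X:ℝ) ^ (a + b)) * (l * (1 + ‖riemannZeta (crit t)‖ ^ 2) + l⁻¹ * (4 / u ^ 2 + tq u H t)) := by
      intro t
      have e3 : (-1) ^ i * conj (ff N X i j a b t) - Ps N X i j a b (crit t) = 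
          (-1) ^ i * (1 - (crit t / (crit t + 1)) ^ (i + j)) * conj (ff N X i j a b t) := by
        rw [Ps_crit]; ring
      rw [e3, norm_mul, norm_mul, norm_pow, norm_neg, norm_one, one_pow, one_mul, Complex.norm_conj]
      have h1 := norm_one_sub_pow_le (w_norm t) (i + j)
      rw [one_sub_w, norm_inv] at h1
      have h2 := norm_ff_le hN X hi j a b t
      have hr : 1 ≤ ‖crit t + 1‖ := by
        refine le_trans ?_ (Complex.abs_re_le_norm _)
        rw [add_re, one_re, crit_re]; norm_num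
      have hrt : |t| ≤ ‖crit t + 1‖ := by
        have := Complex.abs_im_le_norm (crit t + 1)
        rwa [add_im, one_im, crit_im, add_zero] at this
      have h3 := inv_sq_bound (t := t) hu hH0 hr hrt
      have h4 := amgm (z := ‖riemannZeta (crit t)‖) (r := ‖crit t + 1‖⁻¹) hl
      calc ‖1 - (crit t / (crit t + 1)) ^ (i + j)‖ * ‖ff N X i j a b t‖ 
          ≤ (((i + j : ℕ) : ℝ) * ‖crit t + 1‖⁻¹) * ((X:ℝ) ^ (a + b) * (1 + ‖riemannZeta (crit t)‖)) := by gcongr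
        _ = (((i + j : ℕ) : ℝ) * (X:ℝ) ^ (a + b)) * ((1 + ‖riemannZeta (crit t)‖) * ‖crit t + 1‖⁻¹) := by ring
        _ ≤ (((i + j : ℕ) : ℝ) * (X:ℝ) ^ (a + b)) * (l * (1 + ‖riemannZeta (crit t)‖ ^ 2) + l⁻¹ * (4 / u ^ 2 + tq u H t)) := by
          apply mul_le_mul_of_nonneg_left _ (by positivity)
          refine h4.trans ?_
          gcongr
    have i1 : Integrable (fun t : ℝ => 1 + ‖riemannZeta (crit t)‖ ^ 2) μ := (integrable_const 1).add iz
    have i2 : Integrable (fun t : ℝ => 4 / u ^ 2 + tq u H t) μ := (integrable_const _).add it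
    have ib : Integrable (fun t : ℝ => (((i + j : ℕ) : ℝ) * (X:ℝ) ^ (a + b)) * 
        (l * (1 + ‖riemannZeta (crit t)‖ ^ 2) + l⁻¹ * (4 / u ^ 2 + tq u H t))) μ := 
      ((i1.const_mul l).add (i2.const_mul l⁻¹)).const_mul _
    refine (norm_integral_le_of_norm_le ib (Eventually.of_forall hpt)).trans ?_
    rw [integral_const_mul, integral_add (i1.const_mul l) (i2.const_mul l⁻¹), 
      integral_const_mul, integral_const_mul, integral_add (integrable_const 1) iz, integral_add (integrable_const _) it, 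
      integral_const, integral_const]
    simp only [probReal_univ, smul_eq_mul, mul_one, one_mul]
    gcongr
  · obtain ⟨C, K, hC, hK, hg⟩ := Ps_growth hN X i j a b
    have h1 := gauss_eq_KK (u := u) hv0.ne' (Ps N X i j a b)
    rw [h1, ← shift_exp (a := -(1/2)) (b := 1/2) (by norm_num) (fun s hs _ => Ps_diff N X i j a b (by linarith)) hv' hC hK hg]
    rw [norm_mul, norm_real, Real.norm_eq_abs, abs_of_nonneg (by positivity)]
    have hs2 : 0 < √(2 * Real.pi * v) := by positivity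
    calc (√(2 * Real.pi * v))⁻¹ * ‖∫ y : ℝ, Ps N X i j a b (((-(1/2):ℝ):ℂ) + y * I) * KK u v (((-(1/2):ℝ):ℂ) + y * I)‖ 
        ≤ (√(2 * Real.pi * v))⁻¹ * ∫ y : ℝ, ‖Ps N X i j a b (((-(1/2):ℝ):ℂ) + y * I) * KK u v (((-(1/2):ℝ):ℂ) + y * I)‖ := by
          gcongr
          exact norm_integral_le_integral_norm _
      _ = Real.exp ((-(1/2) - 1/2) ^ 2 / (2 * v)) * En (Ps N X i j a b) u v (-(1/2)) := by
          rw [En_eq _ hv0]
          field_simp
      _ ≤ 2 * (((4 * Real.pi) ^ j * Z ^ (i + a) * ((X:ℝ) ^ (3/2:ℝ)) ^ b) * (2 / u + 8 * Real.exp (-u / (2 * H)))) := by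
          have h2 : Real.exp ((-(1/2) - 1/2) ^ 2 / (2 * v)) ≤ 2 := by
            have h3 : (-(1/2) - 1/2 : ℝ) ^ 2 / (2 * v) ≤ 1/2 := by
              rw [div_le_div_iff₀ (by positivity) (by norm_num)]
              norm_num
              linarith
            have e1 : Real.exp (1/2) ≤ 2 := by
              have h3 : Real.exp (1/2) ^ 2 = Real.exp 1 := by rw [← Real.exp_nat_mul]; norm_num
              have := Real.exp_one_lt_d9
              nlinarith [Real.exp_pos (1/2)]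
            exact (Real.exp_le_exp.mpr h3).trans e1
          have hZ := Z_nonneg
          have h4 : En (Ps N X i j a b) u v (-(1/2)) ≤ 
              ((4 * Real.pi) ^ j * Z ^ (i + a) * ((X:ℝ) ^ (3/2:ℝ)) ^ b) * (2 / u + 8 * Real.exp (-u / (2 * H))) := by
            unfold En
            rw [← hμ]
            have ib : Integrable (fun t : ℝ => ((4 * Real.pi) ^ j * Z ^ (i + a) * ((X:ℝ) ^ (3/2:ℝ)) ^ b) * 
                (2 / u + 2 * tq u H t)) μ := ((integrable_const _).add (it.const_mul 2)).const_mul _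
            refine (integral_mono_of_nonneg (Eventually.of_forall fun t => norm_nonneg _) ib 
              (Eventually.of_forall fun t => norm_left hN X i hj a b hu hH0 t)).trans ?_
            rw [integral_const_mul, integral_add (integrable_const _) (it.const_mul 2), integral_const_mul, integral_const]
            simp only [probReal_univ, smul_eq_mul, one_mul]
            exact mul_le_mul_of_nonneg_left (by linarith) (by positivity)
          have h5 : 0 ≤ En (Ps N X i j a b) u v (-(1/2)) := En_nonneg _ _ _ _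
          gcongr

end T2

open T2 in
theorem twist_small {N : ℕ} (hN : 1 ≤ N) (i j a b : ℕ) (hi : i ≤ 1) (hj : 1 ≤ j) {θ : ℝ} (hθ0 : 0 < θ) (hθ : θ * ((a:ℝ) + b) ≤ 1/8)
    {η : ℝ} (hη : 0 < η) 
    (hz : ∀ᶠ q : ℝ × ℝ in Fl η, ∫ t, ‖riemannZeta (crit t)‖ ^ 2 ∂(gaussianReal q.2 (vT (4/5) q.1)) ≤ q.1 ^ (1/4:ℝ)) :
    Tendsto (fun p : ℝ × ℝ => ∫ t, (riemannZeta (crit t)) ^ i * (chi t) ^ j * (Bf N (NT θ p.1) t) ^ a * 
      (conj (Bf N (NT θ p.1) t)) ^ b ∂(gaussianReal p.2 (vT (4/5) p.1))) (Fl η) (𝓝 0) := by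
  set c := η / 2 with hc
  have hc0 : 0 < c := by positivity
  -- the limit function
  set g : ℝ → ℝ := fun T => ((i + j : ℕ) : ℝ) * (T ^ (-(3/8):ℝ) + T ^ (-(1/8):ℝ) + 
      4 / η ^ 2 * T ^ (-(11/8):ℝ) + 4 * (T ^ (5/8:ℝ) * Real.exp (-(c * T ^ (1/10:ℝ))))) + 
      2 * ((4 * Real.pi) ^ j * Z ^ (i + a)) * (2 / η * T ^ (-(13/16):ℝ) + 8 * (T ^ (3/16:ℝ) * Real.exp (-(c * T ^ (1/10:ℝ))))) with hg
  have hg0 : Tendsto g atTop (𝓝 0) := by
    have t1 := tendsto_rpow_neg_atTop (by norm_num : (0:ℝ) < 3/8)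
    have t2 := tendsto_rpow_neg_atTop (by norm_num : (0:ℝ) < 1/8)
    have t3 := (tendsto_rpow_neg_atTop (by norm_num : (0:ℝ) < 11/8)).const_mul (4 / η ^ 2)
    have t4 := (lim_exp hc0 (by norm_num : (0:ℝ) < 1/10) (5/8)).const_mul 4
    have t5 := (tendsto_rpow_neg_atTop (by norm_num : (0:ℝ) < 13/16)).const_mul (2 / η)
    have t6 := (lim_exp hc0 (by norm_num : (0:ℝ) < 1/10) (3/16)).const_mul 8
    have t7 := ((((t1.add t2).add t3).add t4).const_mul ((i + j : ℕ) : ℝ)).add ((t5.add t6).const_mul (2 * ((4 * Real.pi) ^ j * Z ^ (i + a))))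
    simp only [mul_zero, add_zero] at t7
    exact t7
  rw [tendsto_zero_iff_norm_tendsto_zero]
  refine squeeze_zero' (Eventually.of_forall fun p => norm_nonneg _) ?_ (hg0.comp (Fl_fst η))
  have hv4 := (Fl_fst η).eventually (four_le_vT (θ := 4/5) (by norm_num))
  filter_upwards [hz, Fl_pos hη, Fl_range η, hv4] with p hz1 hp1 hp2 hv
  obtain ⟨T, u⟩ := p
  simp only at hz1 hp1 hp2 hv ⊢
  have hT1 : 1 ≤ T := hp1.1.le
  have hT0 : 0 < T := by linarith
  have hu0 : 0 < u := by linarith [hp1.2]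
  have hv1 : 1 ≤ vT (4/5) T := le_trans (by norm_num) hv
  have hl : 0 < T ^ (-(1/2):ℝ) := Real.rpow_pos_of_pos hT0 _
  have key := main_bound hN (NT θ T) hi hj a b hu0 hv1 hl
  unfold ff at key
  refine key.trans ?_
  have hX : (NT θ T : ℝ) ≤ T ^ θ := NT_le_rpow θ hT0
  have hX1 : (NT θ T : ℝ) ^ (a + b) ≤ T ^ (1/8:ℝ) := by
    calc (NT θ T : ℝ) ^ (a + b) ≤ (T ^ θ) ^ (a + b) := by gcongr
      _ = T ^ (θ * ((a:ℝ) + b)) := by
        rw [← Real.rpow_natCast, ← Real.rpow_mul hT0.le]; push_cast; rfl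
      _ ≤ _ := Real.rpow_le_rpow_of_exponent_le hT1 hθ
  have hX2 : ((NT θ T : ℝ) ^ (3/2:ℝ)) ^ b ≤ T ^ (3/16:ℝ) := by
    calc ((NT θ T : ℝ) ^ (3/2:ℝ)) ^ b ≤ ((T ^ θ) ^ (3/2:ℝ)) ^ b := by gcongr
      _ = T ^ (θ * (3/2) * b) := by
        rw [← Real.rpow_natCast, ← Real.rpow_mul hT0.le, ← Real.rpow_mul hT0.le]
      _ ≤ _ := by
        apply Real.rpow_le_rpow_of_exponent_le hT1
        have : 0 ≤ θ * a := by positivity
        nlinarith
  have hinv : u⁻¹ ≤ (η * T)⁻¹ := by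
    apply inv_anti₀ (by positivity) hp2.1
  have hsq : √((vT (4/5) T : ℝ≥0) : ℝ) = T ^ (9/10:ℝ) := by
    rw [sqrt_vT _ hT0]; unfold HT; norm_num
  have hexp : Real.exp (-u / (2 * √((vT (4/5) T : ℝ≥0) : ℝ))) ≤ Real.exp (-(c * T ^ (1/10:ℝ))) := by
    rw [hsq]
    apply Real.exp_le_exp.mpr
    rw [neg_div, neg_le_neg_iff, le_div_iff₀ (by positivity)]
    have e : T ^ (1/10:ℝ) * T ^ (9/10:ℝ) = T := by
      rw [← Real.rpow_add hT0]; norm_num
    calc c * T ^ (1/10:ℝ) * (2 * T ^ (9/10:ℝ)) = η * (T ^ (1/10:ℝ) * T ^ (9/10:ℝ)) := by rw [hc]; ring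
      _ = η * T := by rw [e]
      _ ≤ u := hp2.1
  set E := Real.exp (-(c * T ^ (1/10:ℝ))) with hE
  have hlinv : (T ^ (-(1/2):ℝ))⁻¹ = T ^ (1/2:ℝ) := by rw [Real.rpow_neg hT0.le, inv_inv]
  have h4u : 4 / u ^ 2 ≤ 4 / (η * T) ^ 2 := by
    have := hp2.1
    gcongr
  have h2u : 2 / u ≤ 2 / (η * T) := by
    have := hp2.1
    gcongr
  have hZ := Z_nonneg
  have b1 : (((i + j : ℕ) : ℝ) * (NT θ T : ℝ) ^ (a + b)) * (T ^ (-(1/2):ℝ) * (1 + ∫ t, ‖riemannZeta (crit t)‖ ^ 2 ∂(gaussianReal u (vT (4/5) T))) + 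
        (T ^ (-(1/2):ℝ))⁻¹ * (4 / u ^ 2 + 4 * Real.exp (-u / (2 * √((vT (4/5) T : ℝ≥0):ℝ))))) ≤ 
      ((i + j : ℕ) : ℝ) * (T ^ (-(3/8):ℝ) + T ^ (-(1/8):ℝ) + 4 / η ^ 2 * T ^ (-(11/8):ℝ) + 4 * (T ^ (5/8:ℝ) * E)) := by
    rw [hlinv]
    calc _ ≤ (((i + j : ℕ) : ℝ) * T ^ (1/8:ℝ)) * (T ^ (-(1/2):ℝ) * (1 + T ^ (1/4:ℝ)) + T ^ (1/2:ℝ) * (4 / (η * T) ^ 2 + 4 * E)) := by
          have h0 : 0 ≤ ∫ t, ‖riemannZeta (crit t)‖ ^ 2 ∂(gaussianReal u (vT (4/5) T)) := integral_nonneg fun _ => by positivity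
          gcongr
      _ = _ := by
          have e1 : T ^ (-(3/8):ℝ) = T ^ (1/8:ℝ) * T ^ (-(1/2):ℝ) := by rw [← Real.rpow_add hT0]; norm_num
          have e2 : T ^ (-(1/8):ℝ) = T ^ (1/8:ℝ) * T ^ (-(1/2):ℝ) * T ^ (1/4:ℝ) := by 
            rw [← Real.rpow_add hT0, ← Real.rpow_add hT0]; norm_num
          have e3 : T ^ (-(11/8):ℝ) = T ^ (1/8:ℝ) * T ^ (1/2:ℝ) / T ^ 2 := by 
            rw [← Real.rpow_natCast, ← Real.rpow_add hT0, ← Real.rpow_sub hT0]; norm_num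
          have e4 : T ^ (5/8:ℝ) = T ^ (1/8:ℝ) * T ^ (1/2:ℝ) := by rw [← Real.rpow_add hT0]; norm_num
          rw [e1, e2, e3, e4]
          field_simp
          ring
  have b2 : 2 * (((4 * Real.pi) ^ j * Z ^ (i + a) * ((NT θ T:ℝ) ^ (3/2:ℝ)) ^ b) * (2 / u + 8 * Real.exp (-u / (2 * √((vT (4/5) T : ℝ≥0):ℝ))))) ≤ 
      2 * ((4 * Real.pi) ^ j * Z ^ (i + a)) * (2 / η * T ^ (-(13/16):ℝ) + 8 * (T ^ (3/16:ℝ) * E)) := by
    calc _ ≤ 2 * (((4 * Real.pi) ^ j * Z ^ (i + a) * T ^ (3/16:ℝ)) * (2 / (η * T) + 8 * E)) := by gcongr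
      _ = _ := by
          have e1 : T ^ (-(13/16):ℝ) = T ^ (3/16:ℝ) / T := by 
            rw [← Real.rpow_sub_one hT0.ne']; norm_num
          rw [e1]
          field_simp
  exact add_le_add b1 b2

end Pool.Agent.LibZD46
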